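import Pool.Agent.W754.NoOverlap

set_option autoImplicit false

open MeasureTheory Filter Topology Set Matrix
open scoped ENNReal

namespace Pool.Agent.W754

variable {d : ℕ}

/-- A spectral self-affine measure has no exact overlaps. -/
lemma dig_injective_of_spectral (R : Matrix (Fin d) (Fin d) ℤ) (B : Finset (Fin d → ℤ))
    (hB : B.Nonempty) (hdet : R.det ≠ 0)
    (φ : (Fin d → ℤ) → (Fin d → ℝ) → (Fin d → ℝ))
    (μ : Measure (Fin d → ℝ)) [IsProbabilityMeasure μ]
    (hA : IsUnit (R.map (Int.castRingHom ℝ)).det)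
    (hφ : ∀ b x, φ b x = (R.map (Int.castRingHom ℝ))⁻¹ *ᵥ (x + toR b))
    (hφm : ∀ b ∈ B, Measurable (φ b))
    (hμ : ∀ S : Set (Fin d → ℝ), MeasurableSet S →
      μ S = (B.card : ℝ≥0∞)⁻¹ * ∑ b ∈ B, μ (φ b ⁻¹' S))
    (T : Set (Fin d → ℝ)) (hT : IsCompact T) (hTne : T.Nonempty) (hTμ : μ Tᶜ = 0)
    (Λ : Set (Fin d → ℝ)) (e : Λ → Lp ℂ 2 μ)
    (he : ∀ l : Λ, (e l : (Fin d → ℝ) → ℂ) =ᵐ[μ] fun x => ex (l : Fin d → ℝ) x)
    (ho : Orthonormal ℂ e) (hs : (Submodule.span ℂ (Set.range e)).topologicalClosure = ⊤)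
    (k : ℕ) (L1 : List (Fin d → ℤ)) (hL1 : L1 ∈ Wd B k) (L2 : List (Fin d → ℤ))
    (hL2 : L2 ∈ Wd B k) (hdig : dig R L1 = dig R L2) : L1 = L2 := by
  by_contra hne
  set A := R.map (Int.castRingHom ℝ) with hAdef
  set c : ℝ≥0∞ := ((B.card : ℝ≥0∞)⁻¹) ^ k with hc
  have hcard : (B.card : ℝ≥0∞) ≠ 0 := by
    simpa using hB.ne_empty
  have hcard' : (B.card : ℝ≥0∞) ≠ ⊤ := ENNReal.natCast_ne_top _
  have hc0 : c ≠ 0 := by
    rw [hc]
    exact pow_ne_zero _ (ENNReal.inv_ne_zero.2 hcard')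
  obtain ⟨f, hf⟩ := exists_dir R hdet B k
  obtain ⟨L0, hL0, hmax⟩ := exists_max_word R B hB f k hf
  have hfc : Continuous f := LinearMap.continuous_of_finiteDimensional f
  -- the gap
  obtain ⟨δ, hδ, hgap⟩ : ∃ δ : ℝ, 0 < δ ∧ ∀ L ∈ Wd B k, L ≠ L0 →
      f (toR (dig R L)) + δ ≤ f (toR (dig R L0)) := by
    by_cases hemp : ((Wd B k).erase L0).Nonempty
    · obtain ⟨L3, hL3, hL3max⟩ := Finset.exists_max_image ((Wd B k).erase L0)
        (fun L => f (toR (dig R L))) hemp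
      rw [Finset.mem_erase] at hL3
      refine ⟨f (toR (dig R L0)) - f (toR (dig R L3)), sub_pos.2 (hmax L3 hL3.2 hL3.1), ?_⟩
      intro L hL hLne
      have := hL3max L (Finset.mem_erase.2 ⟨hLne, hL⟩)
      linarith
    · refine ⟨1, one_pos, ?_⟩
      intro L hL hLne
      exact absurd ⟨L, Finset.mem_erase.2 ⟨hLne, hL⟩⟩ hemp
  -- bounded above on T
  obtain ⟨t0, ht0, hmaxT⟩ := hT.exists_isMaxOn hTne hfc.continuousOn
  have hnull0 : μ {x | f t0 < f x} = 0 := by
    refine measure_mono_null ?_ hTμ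
    intro x hx hxT
    have h1 : f x ≤ f t0 := hmaxT hxT
    exact absurd h1 (not_le.2 hx)
  have hex : ∃ m : ℕ, μ {x | f t0 - m * δ < f x} ≠ 0 := by
    by_contra hcon
    simp only [not_exists, not_not] at hcon
    have h1 : μ (⋃ m : ℕ, {x | f t0 - m * δ < f x}) = 0 := measure_iUnion_null hcon
    have h2 : (⋃ m : ℕ, {x | f t0 - m * δ < f x}) = univ := by
      ext x
      simp only [mem_iUnion, mem_ofPred_eq, mem_univ, iff_true]
      obtain ⟨m, hm⟩ := exists_nat_gt ((f t0 - f x) / δ)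
      refine ⟨m, ?_⟩
      rw [div_lt_iff₀ hδ] at hm
      linarith
    rw [h2, measure_univ] at h1
    exact one_ne_zero h1
  classical
  set m := Nat.find hex with hm
  have hmspec : μ {x | f t0 - m * δ < f x} ≠ 0 := Nat.find_spec hex
  have hm0 : m ≠ 0 := by
    intro h0
    rw [h0] at hmspec
    simp only [Nat.cast_zero, zero_mul, sub_zero] at hmspec
    exact hmspec hnull0
  obtain ⟨m', hm'⟩ := Nat.exists_eq_succ_of_ne_zero hm0
  have hmmin : μ {x | f t0 - m' * δ < f x} = 0 := by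
    by_contra hcon
    have := Nat.find_min' hex hcon
    omega
  set h := f t0 - m' * δ with hh
  have hEpos : μ {x | h - δ < f x} ≠ 0 := by
    have : h - δ = f t0 - m * δ := by
      rw [hh, hm']
      push_cast
      ring
    rw [this]
    exact hmspec
  have hpowcancel : ∀ n : ℕ, A ^ n * A⁻¹ ^ n = 1 := by
    intro n
    induction n with
    | zero => simp
    | succ n ih =>
      rw [pow_succ, pow_succ', mul_assoc, ← mul_assoc A, Matrix.mul_nonsing_inv _ hA, one_mul, ih]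
  have hlen : ∀ L ∈ Wd B k, L.length = k := fun L hL => ((mem_Wd B k L).1 hL).1
  set H : Set (Fin d → ℝ) := {y | h + f (toR (dig R L0)) - δ < f (A ^ k *ᵥ y)} with hHdef
  have hmulc : Continuous fun y : Fin d → ℝ => A ^ k *ᵥ y := by
    exact (Matrix.mulVecLin (A ^ k)).continuous_of_finiteDimensional
  have hHm : MeasurableSet H := measurableSet_lt measurable_const (hfc.comp hmulc).measurable
  have hAPhi : ∀ L ∈ Wd B k, ∀ x, A ^ k *ᵥ (Phi φ L x) = x + toR (dig R L) := by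
    intro L hL x
    rw [Phi_eq R φ hA hφ, hlen L hL, Matrix.mulVec_mulVec, ← hAdef, hpowcancel, Matrix.one_mulVec]
  have hpre : ∀ L ∈ Wd B k, Phi φ L ⁻¹' H =
      {x | h + f (toR (dig R L0)) - δ < f x + f (toR (dig R L))} := by
    intro L hL
    ext x
    simp only [hHdef, mem_preimage, mem_ofPred_eq]
    rw [hAPhi L hL, map_add]
  have hpre0 : Phi φ L0 ⁻¹' H = {x | h - δ < f x} := by
    rw [hpre L0 hL0]
    ext x
    simp only [mem_ofPred_eq]
    constructor <;> intro h <;> linarith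
  have hprenull : ∀ L ∈ Wd B k, L ≠ L0 → μ (Phi φ L ⁻¹' H) = 0 := by
    intro L hL hLne
    refine measure_mono_null ?_ hmmin
    rw [hpre L hL]
    intro x hx
    simp only [mem_ofPred_eq] at hx ⊢
    have := hgap L hL hLne
    linarith
  set a : Fin d → ℝ := A⁻¹ ^ k *ᵥ (toR (dig R L1) - toR (dig R L0)) with ha
  have hshift : ∀ x, Phi φ L0 x + a = Phi φ L1 x := by
    intro x
    rw [Phi_eq R φ hA hφ, Phi_eq R φ hA hφ, hlen L0 hL0, hlen L1 hL1, ha, ← Matrix.mulVec_add]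
    congr 1
    abel
  have hL12 : ∀ x, Phi φ L1 x = Phi φ L2 x := by
    intro x
    rw [Phi_eq R φ hA hφ, Phi_eq R φ hA hφ, hlen L2 hL2, hlen L1 hL1, hdig]
  have hmeas : Measurable fun x : Fin d → ℝ => x + a := measurable_id.add_const a
  have hle : (2 : ℝ≥0∞) • (μ.restrict H).map (fun x => x + a) ≤ μ := by
    refine Measure.le_iff.2 fun S hS => ?_
    rw [Measure.smul_apply, Measure.map_apply hmeas hS, Measure.restrict_apply (hmeas hS),
      smul_eq_mul]
    have h1 : μ ((fun x => x + a) ⁻¹' S ∩ H) ≤ c * μ (Phi φ L1 ⁻¹' S) := by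
      rw [measure_iter μ B _ φ hφm hμ k _ ((hmeas hS).inter hHm)]
      rw [← Finset.add_sum_erase _ _ hL0]
      have h2 : ∑ L ∈ (Wd B k).erase L0, μ (Phi φ L ⁻¹' ((fun x => x + a) ⁻¹' S ∩ H)) = 0 := by
        refine Finset.sum_eq_zero fun L hL => ?_
        rw [Finset.mem_erase] at hL
        exact measure_mono_null (fun x hx => hx.2) (hprenull L hL.2 hL.1)
      rw [h2, add_zero]
      gcongr
      intro x hx
      have h3 := hx.1
      simp only [mem_preimage] at h3 ⊢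
      rw [← hshift]
      exact h3
    have h4 : c * μ (Phi φ L1 ⁻¹' S) + c * μ (Phi φ L1 ⁻¹' S) ≤ μ S := by
      rw [measure_iter μ B _ φ hφm hμ k _ hS, ← Finset.add_sum_erase _ _ hL1,
        ← Finset.add_sum_erase _ _ (Finset.mem_erase.2 ⟨Ne.symm hne, hL2⟩)]
      have h5 : μ (Phi φ L2 ⁻¹' S) = μ (Phi φ L1 ⁻¹' S) := by
        congr 1
        ext x
        simp only [mem_preimage, hL12]
      rw [h5, mul_add, mul_add, ← add_assoc]
      exact le_self_add
    calc 2 * μ ((fun x => x + a) ⁻¹' S ∩ H) ≤ 2 * (c * μ (Phi φ L1 ⁻¹' S)) := by gcongr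
      _ = c * μ (Phi φ L1 ⁻¹' S) + c * μ (Phi φ L1 ⁻¹' S) := by rw [two_mul]
      _ ≤ μ S := h4
  have hH0 := null_of_two_translate_le Λ e he ho hs H hHm a hle
  have h6 : c * μ (Phi φ L0 ⁻¹' H) ≤ μ H := by
    rw [measure_iter μ B _ φ hφm hμ k _ hHm, ← Finset.add_sum_erase _ _ hL0, mul_add]
    exact le_self_add
  rw [hH0, hpre0] at h6
  have h7 := le_antisymm h6 zero_le
  rcases mul_eq_zero.1 h7 with h8 | h8
  · exact hc0 h8
  · exact hEpos h8

/-- the finite set of neighbour vectors -/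
lemma nbr_finite (T : Set (Fin d → ℝ)) (hT : IsCompact T) :
    {z : Fin d → ℤ | ∃ t ∈ T, ∃ t' ∈ T, t + toR z = t'}.Finite := by
  obtain ⟨M, hM⟩ := hT.isBounded.exists_norm_le
  obtain ⟨n, hn⟩ := exists_nat_gt (2 * M)
  refine (Set.finite_Icc (fun _ : Fin d => (-(n : ℤ))) (fun _ => (n : ℤ))).subset ?_
  rintro z ⟨t, ht, t', ht', htt⟩
  have hz : toR z = t' - t := by rw [← htt]; abel
  have hbound : ‖toR z‖ ≤ 2 * M := by
    rw [hz]
    calc ‖t' - t‖ ≤ ‖t'‖ + ‖t‖ := norm_sub_le _ _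
      _ ≤ M + M := add_le_add (hM _ ht') (hM _ ht)
      _ = 2 * M := by ring
  have hi : ∀ i, |(z i : ℝ)| ≤ n := by
    intro i
    have h1 := norm_le_pi_norm (toR z) i
    rw [Real.norm_eq_abs] at h1
    exact h1.trans (hbound.trans hn.le)
  constructor
  · intro i
    have := (abs_le.1 (hi i)).1
    have h2 : (-(n : ℤ) : ℝ) ≤ (z i : ℝ) := by exact_mod_cast this
    exact_mod_cast h2
  · intro i
    have := (abs_le.1 (hi i)).2
    exact_mod_cast this

/-- No exact overlaps imply no overlap. -/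
lemma no_overlap_of_dig_injective (R : Matrix (Fin d) (Fin d) ℤ) (B : Finset (Fin d → ℤ))
    (hB : B.Nonempty)
    (φ : (Fin d → ℤ) → (Fin d → ℝ) → (Fin d → ℝ))
    (μ : Measure (Fin d → ℝ)) [IsProbabilityMeasure μ]
    (hA : IsUnit (R.map (Int.castRingHom ℝ)).det)
    (hφ : ∀ b x, φ b x = (R.map (Int.castRingHom ℝ))⁻¹ *ᵥ (x + toR b))
    (hφm : ∀ b ∈ B, Measurable (φ b))
    (hμ : ∀ S : Set (Fin d → ℝ), MeasurableSet S →
      μ S = (B.card : ℝ≥0∞)⁻¹ * ∑ b ∈ B, μ (φ b ⁻¹' S))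
    (T : Set (Fin d → ℝ)) (hT : IsCompact T) (hTμ : μ Tᶜ = 0)
    (hTeq : T = ⋃ b ∈ B, φ b '' T)
    (hinj : ∀ k, ∀ L1 ∈ Wd B k, ∀ L2 ∈ Wd B k, dig R L1 = dig R L2 → L1 = L2)
    (b : Fin d → ℤ) (hb : b ∈ B) (b' : Fin d → ℤ) (hb' : b' ∈ B) (hbb : b ≠ b') :
    μ (φ b '' T ∩ φ b' '' T) = 0 := by
  classical
  set A := R.map (Int.castRingHom ℝ) with hAdef
  set N : Set (Fin d → ℤ) := {z : Fin d → ℤ | ∃ t ∈ T, ∃ t' ∈ T, t + toR z = t'} with hN
  have hNfin : N.Finite := nbr_finite T hT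
  set cnt : List (Fin d → ℤ) → ℕ := fun L =>
    ((Wd B L.length).filter fun L' => dig R L' - dig R L ∈ N).card with hcnt
  have hcntle : ∀ L, cnt L ≤ hNfin.toFinset.card := by
    intro L
    refine Finset.card_le_card_of_injOn (fun L' => dig R L' - dig R L) ?_ ?_
    · intro L' hL'
      simp only [Finset.coe_filter, mem_ofPred_eq] at hL'
      simpa using hL'.2
    · intro L' hL' L'' hL'' heq
      simp only [Finset.coe_filter, mem_ofPred_eq] at hL' hL''
      exact hinj _ L' hL'.1 L'' hL''.1 (sub_left_injective heq)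
  -- a word with the maximal number of neighbours
  obtain ⟨L0, hL0B, hL0max⟩ : ∃ L0 : List (Fin d → ℤ), (∀ x ∈ L0, x ∈ B) ∧
      ∀ L : List (Fin d → ℤ), (∀ x ∈ L, x ∈ B) → cnt L ≤ cnt L0 := by
    set V : Set ℕ := {n | ∃ L : List (Fin d → ℤ), (∀ x ∈ L, x ∈ B) ∧ cnt L = n} with hV
    have hVne : V.Nonempty := ⟨cnt [], [], by simp, rfl⟩
    have hVbdd : BddAbove V := by
      refine ⟨hNfin.toFinset.card, ?_⟩
      rintro n ⟨L, _, rfl⟩
      exact hcntle L
    obtain ⟨L0, hL0, hL0eq⟩ := Nat.sSup_mem hVne hVbdd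
    refine ⟨L0, hL0, ?_⟩
    intro L hL
    rw [hL0eq]
    exact le_csSup hVbdd ⟨L, hL, rfl⟩
  set k0 := L0.length with hk0
  have hL0W : L0 ∈ Wd B k0 := (mem_Wd B k0 L0).2 ⟨rfl, hL0B⟩
  -- extension has only descendants as neighbours
  have hext : ∀ l, ∀ u ∈ Wd B l, ∀ u' ∈ Wd B l, ∀ w ∈ Wd B k0,
      dig R (u' ++ w) - dig R (u ++ L0) ∈ N → u' = u := by
    intro l u hu u' hu' w hw hmem
    have hlenu : u.length = l := ((mem_Wd B l u).1 hu).1
    have hlenu' : u'.length = l := ((mem_Wd B l u').1 hu').1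
    have huL0 : u ++ L0 ∈ Wd B (l + k0) := append_mem_Wd hu hL0W
    have hlen : (u ++ L0).length = l + k0 := ((mem_Wd B _ _).1 huL0).1
    set F0 := (Wd B L0.length).filter fun L' => dig R L' - dig R L0 ∈ N with hF0
    set F1 := (Wd B (u ++ L0).length).filter fun L' => dig R L' - dig R (u ++ L0) ∈ N with hF1
    have himg : F0.image (fun L' => u ++ L') ⊆ F1 := by
      intro M hM
      rw [Finset.mem_image] at hM
      obtain ⟨L', hL', rfl⟩ := hM
      rw [hF0, Finset.mem_filter] at hL'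
      rw [hF1, Finset.mem_filter]
      refine ⟨?_, ?_⟩
      · rw [hlen]
        exact append_mem_Wd hu hL'.1
      · have hlen' : L'.length = k0 := ((mem_Wd B _ _).1 hL'.1).1
        rw [dig_append, dig_append, hlen', ← hk0, add_sub_add_left_eq_sub]
        exact hL'.2
    have hcard1 : F1.card ≤ (F0.image (fun L' => u ++ L')).card := by
      rw [Finset.card_image_of_injective _ (List.append_right_injective u)]
      exact hL0max (u ++ L0) ((mem_Wd B _ _).1 huL0).2
    have heq : F0.image (fun L' => u ++ L') = F1 := Finset.eq_of_subset_of_card_le himg hcard1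
    have hin : u' ++ w ∈ F1 := by
      rw [hF1, Finset.mem_filter]
      refine ⟨?_, hmem⟩
      rw [hlen]
      exact append_mem_Wd hu' hw
    rw [← heq, Finset.mem_image] at hin
    obtain ⟨L', _, hL'⟩ := hin
    exact (List.append_inj hL' (by rw [hlenu, hlenu'])).1.symm
  -- decomposition of T along words
  have hTW : ∀ k, T = ⋃ L ∈ Wd B k, Phi φ L '' T := by
    intro k
    induction k with
    | zero => simp [Wd, Phi]
    | succ k ih =>
      ext x
      constructor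
      · intro hx
        rw [hTeq] at hx
        simp only [mem_iUnion, exists_prop] at hx
        obtain ⟨c, hc, t, ht, rfl⟩ := hx
        rw [ih] at ht
        simp only [mem_iUnion, exists_prop] at ht
        obtain ⟨L, hL, s, hs, rfl⟩ := ht
        simp only [mem_iUnion, exists_prop]
        refine ⟨c :: L, ?_, s, hs, rfl⟩
        simp only [Wd, Finset.mem_image, Finset.mem_product, Prod.exists]
        exact ⟨c, L, ⟨hc, hL⟩, rfl⟩
      · intro hx
        simp only [mem_iUnion, exists_prop] at hx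
        obtain ⟨L, hL, s, hs, rfl⟩ := hx
        simp only [Wd, Finset.mem_image, Finset.mem_product, Prod.exists] at hL
        obtain ⟨c, L', ⟨hc, hL'⟩, rfl⟩ := hL
        rw [hTeq]
        simp only [mem_iUnion, exists_prop]
        refine ⟨c, hc, Phi φ L' s, ?_, rfl⟩
        rw [ih]
        simp only [mem_iUnion, exists_prop]
        exact ⟨L', hL', s, hs, rfl⟩
  -- disjointness
  have hdisj : ∀ l, ∀ u ∈ Wd B l, ∀ u' ∈ Wd B l, u' ≠ u →
      Phi φ (u ++ L0) '' T ∩ Phi φ u' '' T = ∅ := by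
    intro l u hu u' hu' hne
    rw [Set.eq_empty_iff_forall_notMem]
    rintro x ⟨⟨t, ht, rfl⟩, ⟨s, hs, hxs⟩⟩
    rw [hTW k0] at hs
    simp only [mem_iUnion, exists_prop] at hs
    obtain ⟨w, hw, s', hs', rfl⟩ := hs
    apply hne
    refine hext l u hu u' hu' w hw ?_
    refine ⟨s', hs', t, ht, ?_⟩
    have h1 : Phi φ (u' ++ w) s' = Phi φ (u ++ L0) t := by
      rw [Phi_append, Function.comp_apply]
      exact hxs
    have hlen1 : (u' ++ w).length = l + k0 := ((mem_Wd B _ _).1 (append_mem_Wd hu' hw)).1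
    have hlen2 : (u ++ L0).length = l + k0 := ((mem_Wd B _ _).1 (append_mem_Wd hu hL0W)).1
    rw [Phi_eq R φ hA hφ, Phi_eq R φ hA hφ, hlen1, hlen2] at h1
    have hdetpow : IsUnit (A⁻¹ ^ (l + k0)) := by
      refine IsUnit.pow _ ?_
      rw [Matrix.isUnit_nonsing_inv_iff, Matrix.isUnit_iff_isUnit_det]
      exact hA
    have h2 := Matrix.mulVec_injective_of_isUnit hdetpow h1
    rw [toR_sub]
    have h3 : s' + (toR (dig R (u' ++ w)) - toR (dig R (u ++ L0))) =
        s' + toR (dig R (u' ++ w)) - toR (dig R (u ++ L0)) := by abel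
    rw [h3, h2]
    abel
  set S := φ b '' T ∩ φ b' '' T with hS
  have hφc : ∀ c, Continuous (φ c) := by
    intro c
    have h1 : φ c = fun x => A⁻¹ *ᵥ (x + toR c) := funext fun x => hφ c x
    rw [h1]
    exact ((Matrix.mulVecLin A⁻¹).continuous_of_finiteDimensional).comp
      (continuous_id.add continuous_const)
  have hSm : MeasurableSet S :=
    ((hT.image (hφc b)).isClosed.measurableSet).inter ((hT.image (hφc b')).isClosed.measurableSet)
  have hone : ∀ c ∈ B, ∀ l, ∀ v ∈ Wd B l, ∀ c' ∈ B, c ≠ c' →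
      Phi φ ((c :: v) ++ L0) '' T ∩ φ c' '' T = ∅ := by
    intro c hc l v hv c' hc' hcc
    rw [Set.eq_empty_iff_forall_notMem]
    rintro x ⟨hx1, ⟨s, hs, hxs⟩⟩
    rw [hTW l] at hs
    simp only [mem_iUnion, exists_prop] at hs
    obtain ⟨w, hw, s', hs', rfl⟩ := hs
    have hcv : c :: v ∈ Wd B (l + 1) := by
      simp only [Wd, Finset.mem_image, Finset.mem_product, Prod.exists]
      exact ⟨c, v, ⟨hc, hv⟩, rfl⟩
    have hcw : c' :: w ∈ Wd B (l + 1) := by
      simp only [Wd, Finset.mem_image, Finset.mem_product, Prod.exists]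
      exact ⟨c', w, ⟨hc', hw⟩, rfl⟩
    have hne : c' :: w ≠ c :: v := by
      intro h
      exact hcc (List.cons.inj h).1.symm
    have h1 := hdisj (l + 1) (c :: v) hcv (c' :: w) hcw hne
    rw [Set.eq_empty_iff_forall_notMem] at h1
    exact h1 x ⟨hx1, ⟨s', hs', hxs⟩⟩
  have hnull : ∀ l, ∀ u ∈ Wd B (l + 1), μ (Phi φ (u ++ L0) ⁻¹' S) = 0 := by
    intro l u hu
    refine measure_mono_null ?_ hTμ
    intro x hx hxT
    simp only [Wd, Finset.mem_image, Finset.mem_product, Prod.exists] at hu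
    obtain ⟨c, v, ⟨hc, hv⟩, rfl⟩ := hu
    have hx' : Phi φ ((c :: v) ++ L0) x ∈ Phi φ ((c :: v) ++ L0) '' T := ⟨x, hxT, rfl⟩
    by_cases hcb : c = b
    · have h1 := hone c hc l v hv b' hb' (by rw [hcb]; exact hbb)
      rw [Set.eq_empty_iff_forall_notMem] at h1
      exact h1 _ ⟨hx', hx.2⟩
    · have h1 := hone c hc l v hv b hb hcb
      rw [Set.eq_empty_iff_forall_notMem] at h1
      exact h1 _ ⟨hx', hx.1⟩
  have hcard : (B.card : ℝ≥0∞) ≠ 0 := by
    simpa using hB.ne_empty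
  have hcard' : (B.card : ℝ≥0∞) ≠ ⊤ := ENNReal.natCast_ne_top _
  set c : ℝ≥0∞ := ((B.card : ℝ≥0∞)⁻¹) ^ k0 with hc
  set q : ℝ≥0∞ := c * (((Wd B k0).erase L0).card : ℝ≥0∞) with hq
  have hq1 : q < 1 := by
    rw [hq, Finset.card_erase_of_mem hL0W, card_Wd]
    have hpos : 0 < B.card ^ k0 := pow_pos (Finset.card_pos.2 hB) _
    have h1 : ((B.card ^ k0 - 1 : ℕ) : ℝ≥0∞) < ((B.card ^ k0 : ℕ) : ℝ≥0∞) := by
      exact_mod_cast Nat.sub_lt hpos one_pos
    have hcc : c * ((B.card ^ k0 : ℕ) : ℝ≥0∞) = 1 := by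
      rw [hc]
      push_cast
      rw [← mul_pow, ENNReal.inv_mul_cancel hcard hcard', one_pow]
    rw [← hcc]
    refine ENNReal.mul_lt_mul_right ?_ ?_ h1
    · rw [hc]
      exact pow_ne_zero _ (ENNReal.inv_ne_zero.2 hcard')
    · rw [hc]
      exact ENNReal.pow_ne_top (ENNReal.inv_ne_top.2 hcard)
  have hiter : ∀ n l, ∀ u ∈ Wd B (l + 1), μ (Phi φ u ⁻¹' S) ≤ q ^ n := by
    intro n
    induction n with
    | zero =>
      intro l u _
      rw [pow_zero]
      exact prob_le_one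
    | succ n ih =>
      intro l u hu
      have hPm : MeasurableSet (Phi φ u ⁻¹' S) := measurable_Phi B φ hφm (l + 1) u hu hSm
      rw [measure_iter μ B _ φ hφm hμ k0 _ hPm, ← Finset.add_sum_erase _ _ hL0W]
      have h0 : μ (Phi φ L0 ⁻¹' (Phi φ u ⁻¹' S)) = 0 := by
        have := hnull l u hu
        rw [Phi_append] at this
        exact this
      rw [h0, zero_add]
      have h1 : ∑ L ∈ (Wd B k0).erase L0, μ (Phi φ L ⁻¹' (Phi φ u ⁻¹' S)) ≤
          (((Wd B k0).erase L0).card : ℝ≥0∞) * q ^ n := by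
        rw [← nsmul_eq_mul, ← Finset.sum_const]
        refine Finset.sum_le_sum fun L hL => ?_
        have hLW := Finset.mem_of_mem_erase hL
        have h2 : u ++ L ∈ Wd B ((l + k0) + 1) := by
          have := append_mem_Wd hu hLW
          rwa [show l + 1 + k0 = l + k0 + 1 by ring] at this
        have h3 := ih (l + k0) (u ++ L) h2
        rw [Phi_append] at h3
        exact h3
      calc ((B.card : ℝ≥0∞)⁻¹) ^ k0 * ∑ L ∈ (Wd B k0).erase L0, μ (Phi φ L ⁻¹' (Phi φ u ⁻¹' S))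
          ≤ c * ((((Wd B k0).erase L0).card : ℝ≥0∞) * q ^ n) := by
            rw [← hc]
            gcongr
        _ = q ^ (n + 1) := by rw [← mul_assoc, ← hq, pow_succ']
  have hfinal : ∀ l, ∀ u ∈ Wd B (l + 1), μ (Phi φ u ⁻¹' S) = 0 := by
    intro l u hu
    have hlim : Tendsto (fun n => q ^ n) atTop (𝓝 0) := ENNReal.tendsto_pow_atTop_nhds_zero_of_lt_one hq1
    exact le_antisymm (ge_of_tendsto' hlim fun n => hiter n l u hu) zero_le
  rw [measure_iter μ B _ φ hφm hμ 1 _ hSm]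
  rw [Finset.sum_eq_zero fun L hL => hfinal 0 L hL, mul_zero]

end Pool.Agent.W754
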