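import Mathlib

set_option autoImplicit false

open Filter Topology

namespace Pool.Agent.W754

/-- Powers of the inverse of a matrix all of whose eigenvalues have modulus `> 1` tend to zero. -/
lemma pow_inv_tendsto {d : ℕ} (M : Matrix (Fin d) (Fin d) ℂ)
    (h : ∀ z : ℂ, M.charpoly.IsRoot z → 1 < ‖z‖) :
    IsUnit M.det ∧ ∃ c : ℕ → ℝ, Tendsto c atTop (𝓝 0) ∧
      ∀ k, ∀ x : Fin d → ℂ, ‖Matrix.mulVec (M⁻¹ ^ k) x‖ ≤ c k * ‖x‖ := by
  have hdet : IsUnit M.det := by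
    rw [isUnit_iff_ne_zero]
    intro h0
    have h1 := h 0 (by
      rw [Polynomial.IsRoot.def, ← Polynomial.coeff_zero_eq_eval_zero]
      have := Matrix.det_eq_sign_charpoly_coeff M
      rw [h0] at this
      have h2 : ((-1 : ℂ) ^ Fintype.card (Fin d)) ≠ 0 := by simp
      rcases mul_eq_zero.1 this.symm with h3 | h3
      · exact absurd h3 h2
      · exact h3)
    simp at h1
    linarith
  refine ⟨hdet, ?_⟩
  rcases Nat.eq_zero_or_pos d with hd | hd
  · subst hd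
    refine ⟨fun _ => 0, tendsto_const_nhds, ?_⟩
    intro k x
    have : Matrix.mulVec (M⁻¹ ^ k) x = 0 := by
      ext i
      exact i.elim0
    rw [this]
    simp
  · letI : NormedRing (Matrix (Fin d) (Fin d) ℂ) := Matrix.linftyOpNormedRing
    letI : NormedAlgebra ℂ (Matrix (Fin d) (Fin d) ℂ) := Matrix.linftyOpNormedAlgebra
    haveI : CompleteSpace (Matrix (Fin d) (Fin d) ℂ) := FiniteDimensional.complete ℂ _
    haveI : Nonempty (Fin d) := ⟨⟨0, hd⟩⟩
    haveI : Nontrivial (Matrix (Fin d) (Fin d) ℂ) := inferInstance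
    have hM : IsUnit M := (Matrix.isUnit_iff_isUnit_det M).2 hdet
    have hspec : ∀ z ∈ spectrum ℂ M⁻¹, ‖z‖₊ < 1 := by
      intro z hz
      have hz0 : z ≠ 0 := by
        rintro rfl
        rw [spectrum.zero_mem_iff] at hz
        exact hz ((Matrix.isUnit_nonsing_inv_iff).2 hM)
      obtain ⟨U, hU⟩ := hM
      have hUinv : ((U⁻¹ : (Matrix (Fin d) (Fin d) ℂ)ˣ) : Matrix (Fin d) (Fin d) ℂ) = M⁻¹ := by
        rw [← hU, Matrix.coe_units_inv]
      rw [← hUinv] at hz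
      have h1 : ((Units.mk0 z hz0 : ℂˣ) : ℂ) ∈ spectrum ℂ
          ((U⁻¹ : (Matrix (Fin d) (Fin d) ℂ)ˣ) : Matrix (Fin d) (Fin d) ℂ) := hz
      rw [spectrum.inv_mem_iff, inv_inv, hU, Matrix.mem_spectrum_iff_isRoot_charpoly] at h1
      have h2 := h _ h1
      have h3 : ‖((Units.mk0 z hz0)⁻¹ : ℂˣ).val‖ = ‖z‖⁻¹ := by
        rw [Units.val_inv_eq_inv_val, norm_inv, Units.val_mk0]
      rw [h3] at h2
      have h4 : ‖z‖ < 1 := by
        have := norm_pos_iff.2 hz0
        rw [one_lt_inv₀ this] at h2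
        exact h2
      exact_mod_cast h4
    have hrad : spectralRadius ℂ (M⁻¹) < ((1 : NNReal) : ENNReal) :=
      spectrum.spectralRadius_lt_of_forall_lt _ hspec
    obtain ⟨r, hr1, hr2⟩ := ENNReal.lt_iff_exists_nnreal_btwn.1 hrad
    have hr3 : r < 1 := by exact_mod_cast hr2
    have hG := spectrum.pow_nnnorm_pow_one_div_tendsto_nhds_spectralRadius (M⁻¹)
    have hev : ∀ᶠ n : ℕ in atTop, ‖M⁻¹ ^ n‖ ≤ (r : ℝ) ^ n := by
      filter_upwards [hG.eventually (gt_mem_nhds hr1), eventually_gt_atTop 0] with n hn hn0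
      have h1 : (‖M⁻¹ ^ n‖₊ : ENNReal) ≤ (r : ENNReal) ^ n := by
        have hn' : (0 : ℝ) < n := by exact_mod_cast hn0
        have h2 := ENNReal.rpow_le_rpow hn.le hn'.le
        rw [← ENNReal.rpow_mul, one_div, inv_mul_cancel₀ hn'.ne', ENNReal.rpow_one,
          ENNReal.rpow_natCast] at h2
        exact h2
      have h3 : ‖M⁻¹ ^ n‖₊ ≤ r ^ n := by exact_mod_cast h1
      exact_mod_cast h3
    have ht : Tendsto (fun n : ℕ => ‖M⁻¹ ^ n‖) atTop (𝓝 0) := by
      refine squeeze_zero' (Eventually.of_forall fun n => norm_nonneg _) hev ?_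
      exact tendsto_pow_atTop_nhds_zero_of_lt_one r.2 (by exact_mod_cast hr3)
    exact ⟨_, ht, fun k x => Matrix.linfty_opNorm_mulVec _ _⟩

/-- Real version for an integer matrix. -/
lemma int_pow_inv_tendsto {d : ℕ} (R : Matrix (Fin d) (Fin d) ℤ)
    (h : ∀ z : ℂ, (R.map (Int.castRingHom ℂ)).charpoly.IsRoot z → 1 < ‖z‖) :
    IsUnit (R.map (Int.castRingHom ℝ)).det ∧ R.det ≠ 0 ∧ ∃ c : ℕ → ℝ, Tendsto c atTop (𝓝 0) ∧
      ∀ k, ∀ x : Fin d → ℝ, ‖Matrix.mulVec ((R.map (Int.castRingHom ℝ))⁻¹ ^ k) x‖ ≤ c k * ‖x‖ := by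
  obtain ⟨hdet, c, hc, hle⟩ := pow_inv_tendsto _ h
  have hdetR : R.det ≠ 0 := by
    intro h0
    have : (R.map (Int.castRingHom ℂ)).det = ((R.det : ℤ) : ℂ) := by
      have := (RingHom.map_det (Int.castRingHom ℂ) R).symm
      simpa using this
    rw [this, h0] at hdet
    simp at hdet
  have hdetreal : IsUnit (R.map (Int.castRingHom ℝ)).det := by
    have : (R.map (Int.castRingHom ℝ)).det = ((R.det : ℤ) : ℝ) := by
      have := (RingHom.map_det (Int.castRingHom ℝ) R).symm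
      simpa using this
    rw [this, isUnit_iff_ne_zero]
    exact_mod_cast hdetR
  refine ⟨hdetreal, hdetR, c, hc, ?_⟩
  intro k x
  set A := R.map (Int.castRingHom ℝ) with hA
  set M := R.map (Int.castRingHom ℂ) with hM
  have hMA : M = A.map (Complex.ofRealHom) := by
    ext i j
    simp [hA, hM]
  have key : ∀ y : Fin d → ℝ, (fun i => ((Matrix.mulVec A y i : ℝ) : ℂ)) =
      Matrix.mulVec M (fun i => (y i : ℂ)) := by
    intro y
    ext i
    simp [hMA, Matrix.mulVec, dotProduct]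
  have keyinv : ∀ y : Fin d → ℝ, (fun i => ((Matrix.mulVec A⁻¹ y i : ℝ) : ℂ)) =
      Matrix.mulVec M⁻¹ (fun i => (y i : ℂ)) := by
    intro y
    have h1 := key (Matrix.mulVec A⁻¹ y)
    rw [Matrix.mulVec_mulVec, Matrix.mul_nonsing_inv _ hdetreal, Matrix.one_mulVec] at h1
    rw [h1, Matrix.mulVec_mulVec, Matrix.nonsing_inv_mul _ hdet, Matrix.one_mulVec]
  have keypow : ∀ k : ℕ, ∀ y : Fin d → ℝ, (fun i => ((Matrix.mulVec (A⁻¹ ^ k) y i : ℝ) : ℂ)) =
      Matrix.mulVec (M⁻¹ ^ k) (fun i => (y i : ℂ)) := by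
    intro k
    induction k with
    | zero => intro y; simp
    | succ k ih =>
      intro y
      rw [pow_succ, pow_succ, ← Matrix.mulVec_mulVec, ← Matrix.mulVec_mulVec, ← keyinv, ← ih]
  have hn : ∀ y : Fin d → ℝ, ‖(fun i => (y i : ℂ))‖ = ‖y‖ := by
    intro y
    simp [Pi.norm_def]
  rw [← hn, keypow, ← hn x]
  exact hle k _

end Pool.Agent.W754
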