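import Mathlib

set_option autoImplicit false

open MeasureTheory Filter Topology Set
open scoped ENNReal ComplexConjugate

namespace Pool.Agent.W754

variable {d : ℕ}

/-- the exponential `x ↦ exp (2 π i ⟨l, x⟩)` -/
noncomputable def ex (l x : Fin d → ℝ) : ℂ :=
  Complex.exp (2 * Real.pi * Complex.I * ((∑ i, l i * x i : ℝ) : ℂ))

lemma ex_add (l x y : Fin d → ℝ) : ex l (x + y) = ex l x * ex l y := by
  rw [ex, ex, ex, ← Complex.exp_add]
  congr 1
  simp only [Pi.add_apply, mul_add, Finset.sum_add_distrib]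
  push_cast
  ring

lemma norm_ex (l x : Fin d → ℝ) : ‖ex l x‖ = 1 := by
  rw [ex, show (2 * (Real.pi : ℂ) * Complex.I * ((∑ i, l i * x i : ℝ) : ℂ)) =
    ((2 * Real.pi * ∑ i, l i * x i : ℝ) : ℂ) * Complex.I by push_cast; ring]
  exact Complex.norm_exp_ofReal_mul_I _

lemma continuous_ex (l : Fin d → ℝ) : Continuous (ex l) := by
  unfold ex
  fun_prop

/-- Parseval: functions with the same moduli of coefficients have the same norm. -/
lemma parseval_transfer {μ : Measure (Fin d → ℝ)} (Λ : Set (Fin d → ℝ)) (e : Λ → Lp ℂ 2 μ)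
    (he : ∀ l : Λ, (e l : (Fin d → ℝ) → ℂ) =ᵐ[μ] fun x => ex (l : Fin d → ℝ) x)
    (ho : Orthonormal ℂ e) (hs : (Submodule.span ℂ (Set.range e)).topologicalClosure = ⊤)
    (g1 g2 : (Fin d → ℝ) → ℂ) (h1 : MemLp g1 2 μ) (h2 : MemLp g2 2 μ)
    (h : ∀ l : Λ, ‖∫ x, conj (ex (l : Fin d → ℝ) x) * g1 x ∂μ‖ =
      ‖∫ x, conj (ex (l : Fin d → ℝ) x) * g2 x ∂μ‖) :
    ∫ x, ‖g1 x‖ ^ 2 ∂μ = ∫ x, ‖g2 x‖ ^ 2 ∂μ := by
  let b : HilbertBasis Λ ℂ (Lp ℂ 2 μ) := HilbertBasis.mk ho hs.ge
  have hb : ∀ l, b l = e l := fun l => by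
    rw [show b = HilbertBasis.mk ho hs.ge from rfl, HilbertBasis.coe_mk]
  have hin : ∀ g : (Fin d → ℝ) → ℂ, ∀ hg : MemLp g 2 μ, ∀ l : Λ,
      (inner ℂ (b l) (hg.toLp g) : ℂ) = ∫ x, conj (ex (l : Fin d → ℝ) x) * g x ∂μ := by
    intro g hg l
    rw [hb, L2.inner_def]
    refine integral_congr_ae ?_
    filter_upwards [he l, hg.coeFn_toLp] with x hx hx2
    rw [hx, hx2, RCLike.inner_apply, mul_comm]
  have hnorm : ∀ g : (Fin d → ℝ) → ℂ, ∀ hg : MemLp g 2 μ,
      ((∫ x, ‖g x‖ ^ 2 ∂μ : ℝ) : ℂ) =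
        ∑' l : Λ, ((‖∫ x, conj (ex (l : Fin d → ℝ) x) * g x ∂μ‖ ^ 2 : ℝ) : ℂ) := by
    intro g hg
    have e1 := b.tsum_inner_mul_inner (hg.toLp g) (hg.toLp g)
    have e2 : (inner ℂ (hg.toLp g) (hg.toLp g) : ℂ) = ((∫ x, ‖g x‖ ^ 2 ∂μ : ℝ) : ℂ) := by
      rw [L2.inner_def, ← integral_complex_ofReal]
      refine integral_congr_ae ?_
      filter_upwards [hg.coeFn_toLp] with x hx
      rw [hx, inner_self_eq_norm_sq_to_K]
      push_cast
      rfl
    rw [← e2, ← e1]
    refine tsum_congr fun l => ?_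
    rw [← hin g hg l, ← inner_conj_symm (hg.toLp g) (b l), RCLike.conj_mul]
    push_cast
    rfl
  have e3 := hnorm g1 h1
  have e4 := hnorm g2 h2
  have : ((∫ x, ‖g1 x‖ ^ 2 ∂μ : ℝ) : ℂ) = ((∫ x, ‖g2 x‖ ^ 2 ∂μ : ℝ) : ℂ) := by
    rw [e3, e4]
    refine tsum_congr fun l => ?_
    rw [h l]
  exact_mod_cast this

/-- If `μ` is spectral and twice a translate of `μ|_H` is dominated by `μ` then `μ H = 0`. -/
lemma null_of_two_translate_le {μ : Measure (Fin d → ℝ)} [IsProbabilityMeasure μ]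
    (Λ : Set (Fin d → ℝ)) (e : Λ → Lp ℂ 2 μ)
    (he : ∀ l : Λ, (e l : (Fin d → ℝ) → ℂ) =ᵐ[μ] fun x => ex (l : Fin d → ℝ) x)
    (ho : Orthonormal ℂ e) (hs : (Submodule.span ℂ (Set.range e)).topologicalClosure = ⊤)
    (H : Set (Fin d → ℝ)) (hH : MeasurableSet H) (a : Fin d → ℝ)
    (hle : (2 : ℝ≥0∞) • (μ.restrict H).map (fun x => x + a) ≤ μ) : μ H = 0 := by
  set ρ := (μ.restrict H).map (fun x => x + a) with hρ
  have hmeas : Measurable fun x : Fin d → ℝ => x + a := measurable_id.add_const a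
  have hfin : IsFiniteMeasure ρ := by rw [hρ]; infer_instance
  have hSF : SFinite ρ := inferInstance
  have hSG : SigmaFinite μ := inferInstance
  have hLD : ρ.HaveLebesgueDecomposition μ := inferInstance
  have hρle : ρ ≤ μ := by
    refine le_trans ?_ hle
    intro s
    rw [Measure.smul_apply, smul_eq_mul, two_mul]
    exact le_self_add
  have hac : ρ ≪ μ := Measure.absolutelyContinuous_of_le hρle
  set g : (Fin d → ℝ) → ℝ≥0∞ := ρ.rnDeriv μ with hg
  have hgm : Measurable g := Measure.measurable_rnDeriv _ _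
  have hwd : μ.withDensity g = ρ := Measure.withDensity_rnDeriv_eq ρ μ hac
  have hghalf : ∀ᵐ x ∂μ, g x ≤ 2⁻¹ := by
    refine ae_le_of_forall_setLIntegral_le_of_sigmaFinite hgm ?_
    intro s hsm _
    rw [← withDensity_apply g hsm, hwd, setLIntegral_const]
    have h1 := hle s
    rw [Measure.smul_apply, smul_eq_mul] at h1
    calc ρ s = 2⁻¹ * (2 * ρ s) := by
          rw [← mul_assoc, ENNReal.inv_mul_cancel (by norm_num) (by norm_num), one_mul]
      _ ≤ 2⁻¹ * μ s := by gcongr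
  set gr : (Fin d → ℝ) → ℝ := fun x => (g x).toReal with hgr
  have hgr0 : ∀ x, 0 ≤ gr x := fun x => ENNReal.toReal_nonneg
  have hgrh : ∀ᵐ x ∂μ, gr x ≤ 1 / 2 := by
    filter_upwards [hghalf] with x hx
    have := ENNReal.toReal_mono (by norm_num) hx
    simpa [hgr] using this
  have hgrm : Measurable gr := hgm.ennreal_toReal
  -- integrals against `gr`
  have hint : ∀ f : (Fin d → ℝ) → ℂ, ∫ x, f x * (gr x : ℂ) ∂μ = ∫ x, f x ∂ρ := by
    intro f
    rw [← hwd, integral_withDensity_eq_integral_toReal_smul hgm]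
    · refine integral_congr_ae (Eventually.of_forall fun x => ?_)
      simp [hgr, mul_comm]
    · filter_upwards [hghalf] with x hx
      exact lt_of_le_of_lt hx (by norm_num)
  have hintr : ∫ x, gr x ∂μ = ρ.real univ := by
    have h1 := Measure.integral_toReal_rnDeriv hac
    simpa [hgr, hg] using h1
  have hρuniv : ρ.real univ = μ.real H := by
    rw [Measure.real, Measure.real, hρ, Measure.map_apply hmeas MeasurableSet.univ]
    simp
  set g1 : (Fin d → ℝ) → ℂ := H.indicator (fun _ => (1 : ℂ)) with hg1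
  set g2 : (Fin d → ℝ) → ℂ := fun x => (gr x : ℂ) with hg2
  have hm1 : MemLp g1 2 μ := (memLp_const (1 : ℂ)).indicator hH
  have hm2 : MemLp g2 2 μ := by
    refine MemLp.of_bound (C := 1 / 2) (by fun_prop) ?_
    filter_upwards [hgrh] with x hx
    rw [hg2]
    simp only [Complex.norm_real, Real.norm_eq_abs]
    rw [abs_of_nonneg (hgr0 x)]
    exact hx
  have hcoef : ∀ l : Λ, ‖∫ x, conj (ex (l : Fin d → ℝ) x) * g1 x ∂μ‖ =
      ‖∫ x, conj (ex (l : Fin d → ℝ) x) * g2 x ∂μ‖ := by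
    intro l
    have hcc : Continuous fun y => conj (ex (l : Fin d → ℝ) y) :=
      Complex.continuous_conj.comp (continuous_ex (l : Fin d → ℝ))
    have emap : ∫ y, conj (ex (l : Fin d → ℝ) y) ∂ρ =
        ∫ x, conj (ex (l : Fin d → ℝ) (x + a)) ∂(μ.restrict H) := by
      rw [hρ]
      exact integral_map hmeas.aemeasurable hcc.aestronglyMeasurable
    rw [hint, emap]
    have e1 : ∀ x, conj (ex (l : Fin d → ℝ) (x + a)) =
        conj (ex (l : Fin d → ℝ) a) * conj (ex (l : Fin d → ℝ) x) := by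
      intro x
      rw [ex_add, map_mul, mul_comm]
    simp only [e1]
    rw [integral_const_mul, norm_mul, RCLike.norm_conj, norm_ex, one_mul]
    congr 1
    rw [← integral_indicator hH]
    refine integral_congr_ae (Eventually.of_forall fun x => ?_)
    by_cases hx : x ∈ H <;> simp [hg1, hx]
  have hP := parseval_transfer Λ e he ho hs g1 g2 hm1 hm2 hcoef
  have hI1 : ∫ x, ‖g1 x‖ ^ 2 ∂μ = μ.real H := by
    have : (fun x => ‖g1 x‖ ^ 2) = H.indicator (fun _ => (1 : ℝ)) := by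
      funext x
      by_cases hx : x ∈ H <;> simp [hg1, hx]
    rw [this, integral_indicator hH]
    simp
  have hI2 : ∫ x, ‖g2 x‖ ^ 2 ∂μ ≤ 1 / 2 * μ.real H := by
    rw [← hρuniv, ← hintr, ← integral_const_mul]
    refine integral_mono_ae ?_ ?_ ?_
    · have := hm2.integrable_norm_pow (by norm_num)
      simpa using this
    · refine Integrable.const_mul ?_ _
      have h3 : Integrable g2 μ := hm2.integrable (by norm_num)
      have h4 := h3.norm
      refine h4.congr (Eventually.of_forall fun x => ?_)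
      simp [hg2, abs_of_nonneg (hgr0 x)]
    · filter_upwards [hgrh] with x hx
      simp only [hg2, Complex.norm_real, Real.norm_eq_abs, abs_of_nonneg (hgr0 x)]
      nlinarith [hgr0 x]
  have h0 : μ.real H ≤ 0 := by
    have h5 : 0 ≤ μ.real H := measureReal_nonneg
    rw [hI1] at hP
    linarith
  have h6 : μ.real H = 0 := le_antisymm h0 measureReal_nonneg
  rw [Measure.real, ENNReal.toReal_eq_zero_iff] at h6
  rcases h6 with h6 | h6
  · exact h6
  · exact absurd h6 (measure_ne_top _ _)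

end Pool.Agent.W754
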