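import Mathlib

set_option autoImplicit false

open MeasureTheory Filter Topology Set
open scoped ENNReal

namespace Pool.Agent.W754

section Words

variable {α : Type*} [DecidableEq α]

/-- words of length `k` over the alphabet `B` -/
def Wd (B : Finset α) : ℕ → Finset (List α)
  | 0 => {[]}
  | k + 1 => (B ×ˢ Wd B k).image fun p => p.1 :: p.2

lemma mem_Wd (B : Finset α) (k : ℕ) (L : List α) :
    L ∈ Wd B k ↔ L.length = k ∧ ∀ b ∈ L, b ∈ B := by
  induction k generalizing L with
  | zero =>
    constructor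
    · intro h
      simp only [Wd, Finset.mem_singleton] at h
      subst h
      simp
    · rintro ⟨h, -⟩
      simp only [Wd, Finset.mem_singleton]
      exact List.length_eq_zero_iff.1 h
  | succ k ih =>
    simp only [Wd, Finset.mem_image, Finset.mem_product, Prod.exists]
    constructor
    · rintro ⟨b, L', ⟨hb, hL'⟩, rfl⟩
      obtain ⟨h1, h2⟩ := (ih L').1 hL'
      refine ⟨by simp [h1], ?_⟩
      intro c hc
      rcases List.mem_cons.1 hc with rfl | hc
      · exact hb
      · exact h2 c hc
    · rintro ⟨h1, h2⟩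
      cases L with
      | nil => simp at h1
      | cons b L' =>
        refine ⟨b, L', ⟨h2 b (by simp), (ih L').2 ⟨by simpa using h1, ?_⟩⟩, rfl⟩
        intro c hc
        exact h2 c (by simp [hc])

lemma sum_Wd_succ {M : Type*} [AddCommMonoid M] (B : Finset α) (k : ℕ) (f : List α → M) :
    ∑ L ∈ Wd B (k + 1), f L = ∑ b ∈ B, ∑ L ∈ Wd B k, f (b :: L) := by
  rw [Wd, Finset.sum_image, Finset.sum_product]
  rintro ⟨a, L⟩ _ ⟨b, L'⟩ _ h
  simpa using h

lemma card_Wd (B : Finset α) (k : ℕ) : (Wd B k).card = B.card ^ k := by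
  have : (Wd B k).card = ∑ _L ∈ Wd B k, 1 := by simp
  rw [this]
  clear this
  induction k with
  | zero => simp [Wd]
  | succ k ih =>
    rw [sum_Wd_succ]
    simp only [ih]
    rw [Finset.sum_const, smul_eq_mul, pow_succ, mul_comm]

lemma append_mem_Wd {B : Finset α} {k l : ℕ} {L L' : List α} (h : L ∈ Wd B k)
    (h' : L' ∈ Wd B l) : L ++ L' ∈ Wd B (k + l) := by
  rw [mem_Wd] at h h' ⊢
  refine ⟨by rw [List.length_append, h.1, h'.1], ?_⟩
  intro b hb
  rcases List.mem_append.1 hb with hb | hb
  · exact h.2 b hb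
  · exact h'.2 b hb

/-- composition of the maps of an IFS along a word -/
def Phi {X : Type*} (φ : α → X → X) : List α → X → X
  | [] => id
  | b :: L => φ b ∘ Phi φ L

omit [DecidableEq α] in
lemma Phi_append {X : Type*} (φ : α → X → X) (L L' : List α) :
    Phi φ (L ++ L') = Phi φ L ∘ Phi φ L' := by
  induction L with
  | nil => rfl
  | cons b L ih => rw [List.cons_append, Phi, Phi, ih, Function.comp_assoc]

/-- iterating self-similarity -/
lemma measure_iter {X : Type*} [MeasurableSpace X] (μ : Measure X) (B : Finset α) (c : ℝ≥0∞)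
    (φ : α → X → X) (hφ : ∀ b ∈ B, Measurable (φ b))
    (hμ : ∀ S : Set X, MeasurableSet S → μ S = c * ∑ b ∈ B, μ (φ b ⁻¹' S)) (k : ℕ) (S : Set X)
    (hS : MeasurableSet S) :
    μ S = c ^ k * ∑ L ∈ Wd B k, μ (Phi φ L ⁻¹' S) := by
  induction k generalizing S with
  | zero => simp [Wd, Phi]
  | succ k ih =>
    rw [sum_Wd_succ, hμ S hS, pow_succ, mul_assoc, mul_left_comm]
    congr 1
    rw [Finset.mul_sum]
    refine Finset.sum_congr rfl fun b hb => ?_
    rw [ih (φ b ⁻¹' S) (hφ b hb hS)]
    rfl

lemma measurable_Phi {X : Type*} [MeasurableSpace X] (B : Finset α)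
    (φ : α → X → X) (hφ : ∀ b ∈ B, Measurable (φ b)) (k : ℕ) (L : List α) (hL : L ∈ Wd B k) :
    Measurable (Phi φ L) := by
  induction k generalizing L with
  | zero =>
    simp only [Wd, Finset.mem_singleton] at hL
    subst hL
    exact measurable_id
  | succ k ih =>
    simp only [Wd, Finset.mem_image, Finset.mem_product, Prod.exists] at hL
    obtain ⟨b, L', ⟨hb, hL'⟩, rfl⟩ := hL
    exact (hφ b hb).comp (ih L' hL')

end Words

end Pool.Agent.W754
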