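import Pool.Agent.W754.Contract
import Pool.Agent.W754.SpecTranslate
import Pool.Agent.W754.Words

set_option autoImplicit false

open MeasureTheory Filter Topology Set Matrix
open scoped ENNReal

namespace Pool.Agent.W754

variable {d : ℕ}

/-- integer vector as a real vector -/
def toR (z : Fin d → ℤ) : Fin d → ℝ := fun i => (z i : ℝ)

lemma toR_add (z w : Fin d → ℤ) : toR (z + w) = toR z + toR w := by
  ext i; simp [toR]

lemma toR_sub (z w : Fin d → ℤ) : toR (z - w) = toR z - toR w := by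
  ext i; simp [toR]

lemma toR_injective : Function.Injective (toR (d := d)) := by
  intro z w h
  ext i
  have := congrFun h i
  simpa [toR] using this

lemma toR_mulVec (R : Matrix (Fin d) (Fin d) ℤ) (z : Fin d → ℤ) :
    toR (R *ᵥ z) = (R.map (Int.castRingHom ℝ)) *ᵥ toR z := by
  ext i
  simp [toR, Matrix.mulVec, dotProduct]

lemma toR_pow_mulVec (R : Matrix (Fin d) (Fin d) ℤ) (n : ℕ) (z : Fin d → ℤ) :
    toR ((R ^ n) *ᵥ z) = (R.map (Int.castRingHom ℝ)) ^ n *ᵥ toR z := by
  induction n with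
  | zero => simp
  | succ n ih =>
    rw [pow_succ', ← Matrix.mulVec_mulVec, toR_mulVec, ih, Matrix.mulVec_mulVec, ← pow_succ']

/-- the integer vector of a word -/
def dig (R : Matrix (Fin d) (Fin d) ℤ) : List (Fin d → ℤ) → (Fin d → ℤ)
  | [] => 0
  | b :: L => (R ^ L.length) *ᵥ b + dig R L

lemma dig_append (R : Matrix (Fin d) (Fin d) ℤ) (L L' : List (Fin d → ℤ)) :
    dig R (L ++ L') = (R ^ L'.length) *ᵥ dig R L + dig R L' := by
  induction L with
  | nil => simp [dig]
  | cons b L ih =>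
    rw [List.cons_append, dig, dig, ih, List.length_append, Matrix.mulVec_add, add_assoc,
      Matrix.mulVec_mulVec, ← pow_add, add_comm L'.length]

lemma Phi_eq (R : Matrix (Fin d) (Fin d) ℤ) (φ : (Fin d → ℤ) → (Fin d → ℝ) → (Fin d → ℝ))
    (hA : IsUnit (R.map (Int.castRingHom ℝ)).det)
    (hφ : ∀ b x, φ b x = (R.map (Int.castRingHom ℝ))⁻¹ *ᵥ (x + toR b))
    (L : List (Fin d → ℤ)) (x : Fin d → ℝ) :
    Phi φ L x = ((R.map (Int.castRingHom ℝ))⁻¹ ^ L.length) *ᵥ (x + toR (dig R L)) := by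
  set A := R.map (Int.castRingHom ℝ) with hAdef
  have hcancel : ∀ n : ℕ, A⁻¹ ^ n * A ^ n = 1 := by
    intro n
    induction n with
    | zero => simp
    | succ n ih =>
      rw [pow_succ, pow_succ', mul_assoc, ← mul_assoc A⁻¹, Matrix.nonsing_inv_mul _ hA, one_mul, ih]
  induction L with
  | nil =>
    have : toR (0 : Fin d → ℤ) = 0 := by ext i; simp [toR]
    simp [Phi, dig, this]
  | cons b L ih =>
    rw [Phi, Function.comp_apply, ih, hφ, dig, toR_add, toR_pow_mulVec, ← hAdef,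
      List.length_cons, pow_succ', ← Matrix.mulVec_mulVec]
    congr 1
    rw [Matrix.mulVec_add, Matrix.mulVec_add, Matrix.mulVec_add, Matrix.mulVec_mulVec, hcancel,
      Matrix.one_mulVec]
    abel

lemma exists_dir (R : Matrix (Fin d) (Fin d) ℤ) (hdet : R.det ≠ 0)
    (B : Finset (Fin d → ℤ)) (k : ℕ) :
    ∃ f : Module.Dual ℝ (Fin d → ℝ), ∀ i < k, ∀ b ∈ B, ∀ b' ∈ B, b ≠ b' →
      f (toR ((R ^ i) *ᵥ b)) ≠ f (toR ((R ^ i) *ᵥ b')) := by
  let s : Finset (ℕ × (Fin d → ℤ) × (Fin d → ℤ)) :=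
    (Finset.range k ×ˢ B ×ˢ B).filter fun p => p.2.1 ≠ p.2.2
  have hinj : ∀ i : ℕ, ∀ z w : Fin d → ℤ, (R ^ i) *ᵥ z = (R ^ i) *ᵥ w → z = w := by
    intro i z w h
    have h1 : (R ^ i).det ≠ 0 := by
      rw [Matrix.det_pow]
      exact pow_ne_zero _ hdet
    have h2 : (R ^ i) *ᵥ (z - w) = 0 := by rw [Matrix.mulVec_sub, h, sub_self]
    exact sub_eq_zero.1 (Matrix.eq_zero_of_mulVec_eq_zero h1 h2)
  obtain ⟨f, hf⟩ := Module.exists_dual_forall_apply_ne_zero (K := ℝ) (ι := s)
    (fun p => toR ((R ^ p.1.1) *ᵥ p.1.2.1) - toR ((R ^ p.1.1) *ᵥ p.1.2.2)) (by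
      rintro ⟨⟨i, b, b'⟩, hp⟩ h0
      simp only [s, Finset.mem_filter, Finset.mem_product] at hp
      have h1 := sub_eq_zero.1 h0
      exact hp.2 (hinj i b b' (toR_injective h1)))
  refine ⟨f, ?_⟩
  intro i hi b hb b' hb' hne heq
  refine hf ⟨⟨i, b, b'⟩, ?_⟩ ?_
  · simp only [s, Finset.mem_filter, Finset.mem_product, Finset.mem_range]
    exact ⟨⟨hi, hb, hb'⟩, hne⟩
  · rw [map_sub, heq, sub_self]

/-- a direction in which one word is the strict maximiser -/
lemma exists_max_word (R : Matrix (Fin d) (Fin d) ℤ)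
    (B : Finset (Fin d → ℤ)) (hB : B.Nonempty) (f : Module.Dual ℝ (Fin d → ℝ)) (k : ℕ)
    (hf : ∀ i < k, ∀ b ∈ B, ∀ b' ∈ B, b ≠ b' →
      f (toR ((R ^ i) *ᵥ b)) ≠ f (toR ((R ^ i) *ᵥ b'))) :
    ∃ L0 ∈ Wd B k, ∀ L ∈ Wd B k, L ≠ L0 → f (toR (dig R L)) < f (toR (dig R L0)) := by
  induction k with
  | zero =>
    refine ⟨[], by simp [Wd], ?_⟩
    intro L hL hne
    simp only [Wd, Finset.mem_singleton] at hL
    exact absurd hL hne
  | succ k ih =>
    obtain ⟨L0, hL0, hmax⟩ := ih (fun i hi => hf i (Nat.lt_succ_of_lt hi))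
    obtain ⟨b0, hb0, hbmax⟩ := Finset.exists_max_image B (fun b => f (toR ((R ^ k) *ᵥ b))) hB
    have hlen : L0.length = k := ((mem_Wd B k L0).1 hL0).1
    refine ⟨b0 :: L0, ?_, ?_⟩
    · simp only [Wd, Finset.mem_image, Finset.mem_product, Prod.exists]
      exact ⟨b0, L0, ⟨hb0, hL0⟩, rfl⟩
    · intro L hL hne
      simp only [Wd, Finset.mem_image, Finset.mem_product, Prod.exists] at hL
      obtain ⟨b, L', ⟨hb, hL'⟩, rfl⟩ := hL
      have hlen' : L'.length = k := ((mem_Wd B k L').1 hL').1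
      rw [dig, dig, hlen, hlen', toR_add, toR_add, map_add, map_add]
      by_cases hbb : b = b0
      · subst hbb
        have hne' : L' ≠ L0 := by
          rintro rfl
          exact hne rfl
        have := hmax L' hL' hne'
        linarith
      · have h1 := hbmax b hb
        have h2 := hf k (Nat.lt_succ_self k) b hb b0 hb0 hbb
        have h3 : f (toR ((R ^ k) *ᵥ b)) < f (toR ((R ^ k) *ᵥ b0)) := lt_of_le_of_ne h1 h2
        by_cases hLL : L' = L0
        · subst hLL
          linarith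
        · have := hmax L' hL' hLL
          linarith

/-- the self-similar measure lives on the attractor -/
lemma attractor_full (R : Matrix (Fin d) (Fin d) ℤ) (B : Finset (Fin d → ℤ)) (hB : B.Nonempty)
    (φ : (Fin d → ℤ) → (Fin d → ℝ) → (Fin d → ℝ))
    (μ : Measure (Fin d → ℝ)) [IsProbabilityMeasure μ]
    (hA : IsUnit (R.map (Int.castRingHom ℝ)).det)
    (hφ : ∀ b x, φ b x = (R.map (Int.castRingHom ℝ))⁻¹ *ᵥ (x + toR b))
    (hφm : ∀ b ∈ B, Measurable (φ b))
    (c : ℕ → ℝ) (hc : Tendsto c atTop (𝓝 0))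
    (hcb : ∀ k, ∀ x : Fin d → ℝ, ‖((R.map (Int.castRingHom ℝ))⁻¹ ^ k) *ᵥ x‖ ≤ c k * ‖x‖)
    (hμ : ∀ S : Set (Fin d → ℝ), MeasurableSet S →
      μ S = (B.card : ℝ≥0∞)⁻¹ * ∑ b ∈ B, μ (φ b ⁻¹' S))
    (T : Set (Fin d → ℝ)) (hT : IsCompact T) (hTne : T.Nonempty)
    (hTeq : ∀ b ∈ B, φ b '' T ⊆ T) : μ Tᶜ = 0 := by
  have hTW : ∀ k, ∀ L ∈ Wd B k, Phi φ L '' T ⊆ T := by
    intro k
    induction k with
    | zero =>
      intro L hL
      simp only [Wd, Finset.mem_singleton] at hL
      subst hL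
      simp [Phi]
    | succ k ih =>
      intro L hL
      simp only [Wd, Finset.mem_image, Finset.mem_product, Prod.exists] at hL
      obtain ⟨b, L', ⟨hb, hL'⟩, rfl⟩ := hL
      rw [Phi, Set.image_comp]
      exact (Set.image_mono (ih L' hL')).trans (hTeq b hb)
  have hdist : ∀ k, ∀ L ∈ Wd B k, ∀ x,
      Metric.infDist (Phi φ L x) T ≤ |c k| * Metric.infDist x T := by
    intro k L hL x
    obtain ⟨t, ht, hxt⟩ := hT.exists_infDist_eq_dist hTne x
    have hlen : L.length = k := ((mem_Wd B k L).1 hL).1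
    have h1 : Phi φ L t ∈ T := hTW k L hL ⟨t, ht, rfl⟩
    refine (Metric.infDist_le_dist_of_mem h1).trans ?_
    rw [hxt, dist_eq_norm, dist_eq_norm, Phi_eq R φ hA hφ, Phi_eq R φ hA hφ, ← Matrix.mulVec_sub,
      hlen]
    have h2 : x + toR (dig R L) - (t + toR (dig R L)) = x - t := by abel
    rw [h2]
    refine (hcb k (x - t)).trans ?_
    gcongr
    exact le_abs_self _
  have hmF : Measurable fun x : Fin d → ℝ => Metric.infDist x T :=
    (Metric.continuous_infDist_pt T).measurable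
  have hcard : (B.card : ℝ≥0∞) ≠ 0 := by
    simpa using hB.ne_empty
  have hcard' : (B.card : ℝ≥0∞) ≠ ⊤ := ENNReal.natCast_ne_top _
  have key : ∀ r : ℝ, 0 < r → ∀ k, μ {x | r < Metric.infDist x T} ≤
      μ {x | r < |c k| * Metric.infDist x T} := by
    intro r hr k
    have hS : MeasurableSet {x : Fin d → ℝ | r < Metric.infDist x T} :=
      measurableSet_lt measurable_const hmF
    rw [measure_iter μ B _ φ hφm hμ k _ hS]
    calc ((B.card : ℝ≥0∞)⁻¹) ^ k * ∑ L ∈ Wd B k, μ (Phi φ L ⁻¹' {x | r < Metric.infDist x T})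
        ≤ ((B.card : ℝ≥0∞)⁻¹) ^ k * ∑ L ∈ Wd B k, μ {x | r < |c k| * Metric.infDist x T} := by
          gcongr with L hL
          intro x hx
          exact lt_of_lt_of_le hx (hdist k L hL x)
      _ = μ {x | r < |c k| * Metric.infDist x T} := by
          rw [Finset.sum_const, card_Wd, nsmul_eq_mul, ← mul_assoc]
          push_cast
          rw [← mul_pow, ENNReal.inv_mul_cancel hcard hcard', one_pow, one_mul]
  have hzero : ∀ r : ℝ, 0 < r → μ {x | r < Metric.infDist x T} = 0 := by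
    intro r hr
    -- choose a sequence with `|c k| ≤ 1/(n+1)`
    have hb : ∀ n : ℕ, μ {x | r < Metric.infDist x T} ≤
        μ {x | r * (n + 1) < Metric.infDist x T} := by
      intro n
      have hev : ∀ᶠ k in atTop, |c k| < 1 / (n + 1 : ℝ) := by
        have h1 : Tendsto (fun k => |c k|) atTop (𝓝 0) := by
          simpa using hc.abs
        exact h1.eventually (gt_mem_nhds (by positivity))
      obtain ⟨k, hk⟩ := hev.exists
      refine (key r hr k).trans (measure_mono ?_)
      intro x hx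
      simp only [mem_ofPred_eq] at hx ⊢
      have hd : 0 ≤ Metric.infDist x T := Metric.infDist_nonneg
      have hn : (0 : ℝ) < n + 1 := by positivity
      have h2 : |c k| * Metric.infDist x T ≤ 1 / (n + 1 : ℝ) * Metric.infDist x T := by
        gcongr
      have h3 : r < 1 / (n + 1 : ℝ) * Metric.infDist x T := lt_of_lt_of_le hx h2
      rw [one_div, inv_mul_eq_div, lt_div_iff₀ hn] at h3
      exact h3
    have hlim : Tendsto (fun n : ℕ => μ {x | r * (n + 1) < Metric.infDist x T}) atTop (𝓝 0) := by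
      have hanti : Antitone fun n : ℕ => {x : Fin d → ℝ | r * (n + 1) < Metric.infDist x T} := by
        intro m n hmn x hx
        simp only [mem_ofPred_eq] at hx ⊢
        refine lt_of_le_of_lt ?_ hx
        gcongr
      have h1 := tendsto_measure_iInter_atTop (μ := μ)
        (s := fun n : ℕ => {x : Fin d → ℝ | r * (n + 1) < Metric.infDist x T})
        (fun n => (measurableSet_lt measurable_const hmF).nullMeasurableSet) hanti
        ⟨0, measure_ne_top _ _⟩
      have h2 : (⋂ n : ℕ, {x : Fin d → ℝ | r * (n + 1) < Metric.infDist x T}) = ∅ := by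
        ext x
        simp only [mem_iInter, mem_ofPred_eq, mem_empty_iff_false, iff_false, not_forall, not_lt]
        obtain ⟨n, hn⟩ := exists_nat_gt (Metric.infDist x T / r)
        refine ⟨n, ?_⟩
        rw [div_lt_iff₀ hr] at hn
        nlinarith
      rw [h2, measure_empty] at h1
      exact h1
    exact le_antisymm (ge_of_tendsto' hlim hb) (zero_le)
  have hcl : IsClosed T := hT.isClosed
  have hsub : Tᶜ ⊆ ⋃ n : ℕ, {x : Fin d → ℝ | 1 / (n + 1 : ℝ) < Metric.infDist x T} := by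
    intro x hx
    have hpos : 0 < Metric.infDist x T := (hcl.notMem_iff_infDist_pos hTne).1 hx
    obtain ⟨n, hn⟩ := exists_nat_one_div_lt hpos
    exact mem_iUnion.2 ⟨n, hn⟩
  refine measure_mono_null hsub (measure_iUnion_null fun n => hzero _ (by positivity))

end Pool.Agent.W754
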