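import Mathlib

set_option autoImplicit false

open Matrix

/-! Common definitions for the counterexample to MP_5f557b_an (frozen S04820) and MP_a3bfa4_an. -/

namespace Pool.Agent.W754.Sp

/-- `R (x, y) = (D y, x)` on `ℤ^m × ℤ^m`, `D = diag n`. -/
def RR {m : ℕ} (n : Fin m → ℤ) : Matrix (Fin (m + m)) (Fin (m + m)) ℤ :=
  Matrix.reindex finSumFinEquiv finSumFinEquiv
    (Matrix.fromBlocks 0 (Matrix.diagonal n) 1 0)

/-- digits `(u p, f p)` -/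
def dg {m : ℕ} {P : Type*} (u f : P → Fin m → ℤ) (p : P) : Fin (m + m) → ℤ :=
  Fin.append (u p) (f p)

/-- the digit set `B = {(u p, f p)}` -/
def BB {m : ℕ} {P : Type*} [Fintype P] (u f : P → Fin m → ℤ) : Finset (Fin (m + m) → ℤ) :=
  Finset.univ.image (dg u f)

/-- moduli `6,6,6,6,6,48600` -/
def nn : Fin 6 → ℤ := ![6, 6, 6, 6, 6, 48600]

/-- fifteen permutations of `1..5`; the `15` classes `± φ mod 3` are pairwise different and are all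
balanced vectors (one `0`, two `1`, two `2`). -/
def phi : Fin 15 → Fin 5 → ℤ :=
  ![![1, 2, 3, 4, 5], ![1, 2, 4, 3, 5], ![3, 1, 4, 2, 5], ![3, 1, 2, 4, 5], ![3, 1, 2, 5, 4],
    ![1, 3, 4, 2, 5], ![1, 3, 2, 4, 5], ![1, 3, 2, 5, 4], ![1, 4, 3, 2, 5], ![1, 4, 2, 3, 5],
    ![1, 4, 2, 5, 3], ![1, 2, 3, 5, 4], ![1, 2, 4, 5, 3], ![1, 2, 5, 3, 4], ![1, 2, 5, 4, 3]]

/-- the pivot coordinate of `phi i` (value `1`): coordinate `1` for `i = 2, 3, 4`, else `0`. -/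
def isP1 (i : Fin 15) : Bool := i == 2 || i == 3 || i == 4

/-- the point of `Q_i = ker (phi i) ⊆ (ℤ/6)^5` with parameters `r`, entries in `0..5`. -/
def qq (i : Fin 15) (r : Fin 4 → Fin 6) : Fin 5 → ℤ :=
  if isP1 i then
    ![(r 0 : ℕ), (-(3 * (r 0 : ℕ) + phi i 2 * (r 1 : ℕ) + phi i 3 * (r 2 : ℕ) +
      phi i 4 * (r 3 : ℕ))) % 6, (r 1 : ℕ), (r 2 : ℕ), (r 3 : ℕ)]
  else
    ![(-(phi i 1 * (r 0 : ℕ) + phi i 2 * (r 1 : ℕ) + phi i 3 * (r 2 : ℕ) +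
      phi i 4 * (r 3 : ℕ))) % 6, (r 0 : ℕ), (r 1 : ℕ), (r 2 : ℕ), (r 3 : ℕ)]

/-- parameters of the digits: `N = 15 * 6^4 = 19440` -/
abbrev PP := Fin 15 × (Fin 4 → Fin 6)

/-- `u (i, r) = (q, i)` -/
def uu (p : PP) : Fin 6 → ℤ := Fin.snoc (α := fun _ => ℤ) (qq p.1 p.2) ((p.1 : ℕ) : ℤ)

/-- rank of the parameter, in `0..1295` -/
def rk (r : Fin 4 → Fin 6) : ℕ := (r 0 : ℕ) + 6 * (r 1 : ℕ) + 36 * (r 2 : ℕ) + 216 * (r 3 : ℕ)

/-- `s ∈ 0..5`: which element `t_s` of `T = {0, e_1, .., e_5}` -/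
def sidx (p : PP) : ℕ :=
  if (p.1 : ℕ) < 12 then (p.1 : ℕ) % 6 else 2 * ((p.1 : ℕ) - 12) + rk p.2 / 648

/-- `g ∈ 0..3239` -/
def gidx (p : PP) : ℕ :=
  if (p.1 : ℕ) < 12 then rk p.2 + 1296 * ((p.1 : ℕ) / 6) else 2592 + rk p.2 % 648

/-- `f p = (t_s, 15 g)`, `t_0 = 0`, `t_s = e_s` -/
def ff (p : PP) : Fin 6 → ℤ :=
  Fin.snoc (α := fun _ => ℤ) (fun j : Fin 5 => if (j : ℕ) + 1 = sidx p then 1 else 0)
    (15 * (gidx p : ℤ))

/-- the expanding matrix in dimension 12 -/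
def R12 : Matrix (Fin (6 + 6)) (Fin (6 + 6)) ℤ := RR nn

/-- the digit set in dimension 12 -/
def B12 : Finset (Fin (6 + 6) → ℤ) := BB uu ff

end Pool.Agent.W754.Sp
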